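import Mathlib
import Pool.Agent.Q34.S3

set_option autoImplicit false

namespace Pool.Agent.Results.MP_a7ff82_nt.ModPCubed

open Finset Pool.Agent.Helper857.Pad Pool.Agent.Q34 Pool.Agent.Q34.Red
open scoped Nat

/-- rising factorial `(a)_k = a (a+1) ... (a+k-1)` -/
def poch (a : ℚ) (k : ℕ) : ℚ := ∏ i ∈ range k, (a + i)

/-- `S(p) = ∑_{k=0}^{(p-1)/3} (6k+1) (1/3)_k^4 (2k)! / (k!^4 (2/3)_{2k})` -/
def S (p : ℕ) : ℚ :=
  ∑ k ∈ range ((p - 1) / 3 + 1),
    (6 * k + 1) * (poch (1 / 3) k ^ 4 * (((2 * k)! : ℕ) : ℚ) /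
      (((k ! : ℕ) : ℚ) ^ 4 * poch (2 / 3) (2 * k)))

/-- For every prime `p ≡ 1 (mod 3)`, `S(p) ≡ p (mod p^3)`. -/
theorem result (p : ℕ) (hp : p.Prime) (h3 : p % 3 = 1) : Cong p 3 (S p) p := by
  have : Fact p.Prime := ⟨hp⟩
  have hp7 : 7 ≤ p := by
    have := hp.two_le
    by_contra hlt
    have h4 : p ≠ 4 := by rintro rfl; exact absurd hp (by norm_num)
    omega
  have hodd : p % 2 = 1 := by
    rcases hp.eq_two_or_odd with h | h <;> omega
  obtain ⟨n, hn⟩ : ∃ n, p = 3 * n + 1 := ⟨p / 3, by omega⟩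
  have u3 : Un p (3 : ℚ) := by exact_mod_cast Un.nat_lt (p := p) (n := 3) (by norm_num) (by omega)
  have u2 : Un p (2 : ℚ) := by exact_mod_cast Un.nat_lt (p := p) (n := 2) (by norm_num) (by omega)
  have u6 : Un p (6 : ℚ) := by have := u2.mul u3; norm_num at this; exact this
  have hpq : (p : ℚ) = 3 * n + 1 := by rw [hn]; push_cast; ring
  have hx : I p 1 ((p : ℚ) / 3) := ⟨3⁻¹, u3.2.2, by rw [pow_one]; ring⟩
  have M := S3.main (p := p) (a := 1 / 3) (x := (p : ℚ) / 3) (n := n) (by rw [hpq]; ring) hx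
    (by omega) (by omega) (by rw [one_div]; exact u3.2.2)
    (fun i hi => by
      have h1 : Un p ((3 * i + 1 : ℕ) : ℚ) := Un.nat_lt (by omega) (by omega)
      have := h1.div u3
      convert this using 1
      push_cast; ring)
    (fun i hi => by
      have h1 : Un p ((6 * i + 5 : ℕ) : ℚ) := Un.nat (by
        rintro ⟨c, hc⟩
        have : c < 2 := by
          by_contra hcon
          have : p * 2 ≤ p * c := Nat.mul_le_mul_left _ (by omega)
          omega
        interval_cases c <;> omega)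
      have := h1.div u6
      convert this using 1
      push_cast; ring)
    (fun i => by positivity)
    (fun i h0 => by
      have h1 : ((3 + 3 * i : ℕ) : ℚ) = ((p : ℕ) : ℚ) := by push_cast; linarith
      have h2 : 3 + 3 * i = p := by exact_mod_cast h1
      omega)
    (fun i => by positivity)
  have hS : S p = 3 * ∑ k ∈ range (n + 1), (1 / 3 + 2 * (k : ℚ)) * (S3.v (1 / 3) k * S3.Q (1 / 3) k) := by
    unfold S
    rw [show (p - 1) / 3 = n by omega, mul_sum]
    refine sum_congr rfl fun k _ => ?_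
    rw [← S3.term_eq (1 / 3) k (fun i => by positivity) (fun i => by positivity),
      show (2 : ℚ) * (1 / 3) = 2 / 3 by norm_num]
    change _ = 3 * ((1 / 3 + 2 * (k : ℚ)) * (poch (1 / 3) k ^ 4 * (((2 * k)! : ℕ) : ℚ) /
      (((k ! : ℕ) : ℚ) ^ 4 * poch (2 / 3) (2 * k))))
    ring
  apply cong_of_I
  rw [hS]
  have := I.mem_mul u3.2.1 M
  convert this using 1
  ring

end Pool.Agent.Results.MP_a7ff82_nt.ModPCubed
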